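import Pool.Agent.W516.CMF.Defs

set_option autoImplicit false

/-! A hyperbolic skew endomorphism vanishes on a stable anisotropic subspace. -/

namespace Pool.Agent.W351.CMF

open Module Pool.Agent.W516.K3 Pool.Agent.W516.CMF

theorem T_DEFN : Pool.Agent.W516.CMF.S_DEFN := by
  intro V _ _ _ b y hb hy U hU hdef u hu
  have h1 : U = ⨆ μ : ℝ, U ⊓ Module.End.genEigenspace y μ 1 :=
    Submodule.eq_iSup_inf_genEigenspace 1 hU hy
  have h2 : (⨆ μ : ℝ, U ⊓ Module.End.genEigenspace y μ 1) ≤ LinearMap.ker y := by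
    refine iSup_le fun μ => ?_
    intro v hv
    obtain ⟨hvU, hvE⟩ := Submodule.mem_inf.1 hv
    have hyv : y v = μ • v := Module.End.mem_eigenspace_iff.1 hvE
    rw [LinearMap.mem_ker]
    by_cases hμ : μ = 0
    · rw [hyv, hμ, zero_smul]
    · by_cases hv0 : v = 0
      · rw [hv0, map_zero]
      · exfalso
        have h3 := hb v v
        rw [hyv] at h3
        simp only [map_smul, LinearMap.smul_apply, smul_eq_mul] at h3
        have h4 : μ * b v v = 0 := by linarith
        rcases mul_eq_zero.1 h4 with h5 | h5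
        · exact hμ h5
        · exact hdef v hvU hv0 h5
  have h3 : u ∈ LinearMap.ker y := h2 (h1 ▸ hu)
  exact LinearMap.mem_ker.1 h3

end Pool.Agent.W351.CMF
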